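import Pool.Agent.Lib.MP_acafa7_al.F.IfaceG
import Pool.Agent.Lib.MP_acafa7_al.MS.Full2

/-! Module QEND: the big face is one edge. -/

namespace MSG.F43

open Classical

/-- the map as a labelled map with labels in a point -/
def lm {D : Type} (M : DMap D) : LMap Unit D 1 where
  toDMap := M
  f := fun _ => ()
  γ := fun _ => 0
  h := fun _ => 0
  γι := fun _ => by simp
  tgt := fun _ => by simp

theorem qend_st : QEndStatement := by
  intro D _ M R ℓ o hM ho h1 h2
  let S : Set D := {d | d ≠ o ∧ d ≠ M.ι o}
  have hRS : ∀ d ∈ R, d = o ∨ d = M.ι o := by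
    intro d hd
    refine (MSG.H14.face_all hM.face (S := {d | d = o ∨ d = M.ι o}) (fun e => ?_) ho hd).1
      (Or.inl rfl)
    constructor
    · rintro (h | h)
      · exact Or.inr (M.φ.injective (h.trans h1.symm))
      · exact Or.inl (M.φ.injective (h.trans h2.symm))
    · rintro (rfl | rfl)
      · exact Or.inr h2
      · exact Or.inl h1
  have hι : ∀ d ∈ S, M.ι d ∈ S := by
    rintro d ⟨ha, hb⟩
    refine ⟨fun h => hb ?_, fun h => ha (M.ι.injective h)⟩
    rw [← h, M.ιι]
  have hφ : ∀ d ∈ S, M.φ d ∈ S := by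
    rintro d ⟨ha, hb⟩
    refine ⟨fun h => hb (M.φ.injective ?_), fun h => ha (M.φ.injective ?_)⟩
    · rw [h, h1]
    · rw [h, h2]
  obtain ⟨D', _, M', j, hj, hjS, hjM, hjV, hjP⟩ := a_subM Unit D 1 (lm M) S
    (fun d hd => ⟨hφ d hd, hι d hd⟩)
  have hjR : ∀ x, j x ∉ R := by
    intro x hx
    have : j x ∈ S := (hjS _).1 ⟨x, rfl⟩
    rcases hRS _ hx with h | h
    · exact this.1 h
    · exact this.2 h
  have hS : ∀ d, d ∉ S := by
    intro d hd
    obtain ⟨x, hx⟩ := (hjS d).2 hd
    have hoff : M'.toDMap.Off3 ∅ := by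
      refine ⟨fun d hd => hd.elim, fun d _ => ?_⟩
      obtain ⟨t1, t2⟩ := hM.off.2 (j d) (hjR d)
      refine ⟨hj ?_, fun h => t2 ?_⟩
      · rw [(hjM _).1, (hjM _).1, (hjM _).1]
        exact t1
      · have := congrArg j h
        rw [(hjM _).1] at this
        exact this
    have hlen : M'.toDMap.LenOK (fun x => ℓ (j x)) ∅ := by
      refine ⟨fun d => hM.lenok.1 _, fun d => ?_, fun d _ => ?_⟩
      · show ℓ (j (M'.ι d)) = _
        rw [(hjM _).2.1]
        exact hM.lenok.2.1 _
      · show ℓ (j (M'.φ d)) < ℓ (j d) + ℓ (j (M'.φ (M'.φ d)))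
        rw [(hjM _).1, (hjM _).1, (hjM _).1]
        exact hM.lenok.2.2 _ (hjR d)
    obtain ⟨y, hy⟩ := a_gb0 D' M'.toDMap (fun x => ℓ (j x)) (hjP hM.planar) ⟨x⟩ hoff hlen
    have hcl : ∀ e, M.SameV (j y) e → e ∈ S := by
      intro e he
      have hyS : j y ∈ S := (hjS _).1 ⟨y, rfl⟩
      refine (he (fun e => e ∈ S) (fun d => ?_)).1 hyS
      constructor
      · intro h
        refine hι d ?_
        by_contra hd
        have : d = o ∨ d = M.ι o := by
          by_contra hc
          push Not at hc
          exact hd hc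
        rcases this with rfl | rfl
        · exact h.2 h2
        · exact h.1 h1
      · intro h
        refine hφ d ?_
        have := hι _ h
        rwa [M.ιι] at this
    have hcu : M'.toDMap.curv (fun x => ℓ (j x)) ∅ y = M.curv ℓ {d | d ∈ R} (j y) := by
      unfold DMap.curv
      congr 1
      rw [← Finset.sum_subset (Finset.subset_univ (Finset.univ.map ⟨j, hj⟩)), Finset.sum_map]
      · refine Finset.sum_congr rfl fun d _ => ?_
        have e1 : M'.toDMap.SameV y d ↔ M.SameV (j y) (j d) := hjV y d
        simp only [Function.Embedding.coeFn_mk, e1]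
        split_ifs
        · unfold DMap.wt
          rw [if_neg (by simp), if_neg (show j d ∉ {d | d ∈ R} from hjR d)]
          unfold DMap.th
          show ang (ℓ (j d)) (ℓ (j (M'.φ (M'.φ d)))) (ℓ (j (M'.φ d))) = _
          rw [(hjM _).1, (hjM _).1]
          rfl
        · rfl
      · intro e _ he
        rw [if_neg]
        intro hse
        apply he
        obtain ⟨z, hz⟩ := (hjS e).2 (hcl e hse)
        rw [Finset.mem_map]
        exact ⟨z, Finset.mem_univ _, hz⟩
    have hnp := hM.npc (j y) (by
      intro b hb hs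
      have := hcl b hs
      rcases hRS b hb with h | h
      · exact this.1 h
      · exact this.2 h)
    rw [← hcu] at hnp
    linarith
  have hall : ∀ d, d ∈ R := by
    intro d
    have hιo : M.ι o ∈ R := by
      have := hM.off.1 o ho
      rw [h2] at this
      exact this
    have := hS d
    have : d = o ∨ d = M.ι o := by
      by_contra hc
      push Not at hc
      exact this hc
    rcases this with rfl | rfl
    · exact ho
    · exact hιo
  unfold DMap.area3
  refine Finset.sum_eq_zero fun d _ => ?_
  rw [if_pos (hall d)]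

end MSG.F43
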